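import Pool.Agent.H99.Trap.Defs2
import Pool.Agent.H99.Trap.A

namespace Pool.Agent.H99.Trap

open MeasureTheory ProbabilityTheory Filter
open scoped ENNReal NNReal Topology

namespace G

/-- folded direction -/
def fdir (a x0 : ℤ) (d : Dir 3) : Dir 3 :=
  if d.1 = 0 then (0, if x0 = a then true else if x0 < a then !d.2 else d.2) else d

theorem fold_add_stp (a : ℤ) (x : Fin 3 → ℤ) (d : Dir 3) :
    fold a (x + stp d) = fold a x + stp (fdir a (x 0) d) := by
  obtain ⟨i, b⟩ := d
  funext k
  fin_cases i <;> cases b <;> fin_cases k <;> simp [fold, stp, fdir]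
  · split_ifs with h1
    · rcases h1 with h1 | h1
      · subst h1; simp
      · rw [abs_of_neg (by omega), abs_of_neg (by omega)]
        ring
    · rw [not_or] at h1
      rw [abs_of_nonneg (by omega), abs_of_nonneg (by omega)]
      ring
  · split_ifs with h1
    · rcases h1 with h1 | h1
      · subst h1; simp
      · rw [abs_of_nonneg (by omega), abs_of_nonneg (by omega)]
        ring
    · rw [not_or] at h1
      rw [abs_of_nonpos (by omega), abs_of_neg (by omega)]
      ring

/-- position just before the jump `i`, jumps in `A` -/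
noncomputable def pre {ι : Type*} (A : Finset ι) (τ : ι → ℝ) (e : ι → Dir 3) (i : ι) : Fin 3 → ℤ :=
  ∑ j ∈ A, if τ j < τ i then stp (e j) else 0

theorem pre_insert {ι : Type*} [DecidableEq ι] {A : Finset ι} {τ : ι → ℝ} {b : ι} (hb : b ∉ A)
    (e : ι → Dir 3) {i : ι} (hi : τ i ≤ τ b) : pre (insert b A) τ e i = pre A τ e i := by
  unfold pre
  rw [Finset.sum_insert hb, if_neg (not_lt.2 hi), zero_add]

theorem fold_sum {ι : Type*} [DecidableEq ι] (a : ℤ) (τ : ι → ℝ) (hτ : Function.Injective τ)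
    (e : ι → Dir 3) (A : Finset ι) :
    fold a (∑ i ∈ A, stp (e i)) =
      fold a 0 + ∑ i ∈ A, stp (fdir a (pre A τ e i 0) (e i)) := by
  induction A using Finset.induction_on_max_value τ with
  | empty => simp
  | insert b A hb hmax ih =>
    rw [Finset.sum_insert hb, Finset.sum_insert hb, add_comm (stp (e b)), fold_add_stp, ih]
    have h1 : pre (insert b A) τ e b = ∑ i ∈ A, stp (e i) := by
      unfold pre
      rw [Finset.sum_insert hb, if_neg (lt_irrefl _), zero_add]
      refine Finset.sum_congr rfl fun i hi => ?_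
      rw [if_pos]
      refine lt_of_le_of_ne (hmax i hi) fun h => ?_
      exact hb (hτ h ▸ hi)
    rw [h1]
    have h2 : ∑ i ∈ A, stp (fdir a (pre (insert b A) τ e i 0) (e i)) =
        ∑ i ∈ A, stp (fdir a (pre A τ e i 0) (e i)) :=
      Finset.sum_congr rfl fun i hi => by rw [pre_insert hb e (hmax i hi)]
    rw [h2]
    abel

/-- weight of one jump -/
noncomputable def wgt (a x0 : ℤ) (d d' : Dir 3) : ℝ≥0∞ :=
  if fdir a x0 d = d' then (if x0 = a ∧ d.1 = 0 then 2⁻¹ else 1) else 0

theorem sum_wgt (a x0 : ℤ) (d' : Dir 3) : ∑ d : Dir 3, wgt a x0 d d' ≤ 1 := by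
  obtain ⟨i, b⟩ := d'
  rw [Fintype.sum_prod_type]
  simp only [Fin.sum_univ_three, Fintype.sum_bool, wgt, fdir]
  by_cases h1 : x0 = a
  · fin_cases i <;> cases b <;> simp [h1, ENNReal.inv_two_add_inv_two]
  · by_cases h2 : x0 < a
    · fin_cases i <;> cases b <;> simp [h1, h2]
    · fin_cases i <;> cases b <;> simp [h1, h2]

theorem sum_update {ι : Type*} [Fintype ι] [DecidableEq ι] (b : ι) (F : (ι → Dir 3) → ℝ≥0∞) :
    ∑ e : ι → Dir 3, ∑ d : Dir 3, F (Function.update e b d) = 6 * ∑ e : ι → Dir 3, F e := by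
  have h := Fintype.sum_equiv
    (Function.Involutive.toPerm (fun p : (ι → Dir 3) × Dir 3 => (Function.update p.1 b p.2, p.1 b))
      (by
        intro p
        ext1
        · simp
        · simp))
    (fun p => F (Function.update p.1 b p.2)) (fun p => F p.1) (fun p => rfl)
  rw [Fintype.sum_prod_type, Fintype.sum_prod_type] at h
  rw [h]
  simp only [Finset.sum_const, Finset.card_univ, Fintype.card_prod, Fintype.card_fin,
    Fintype.card_bool]
  rw [Finset.mul_sum]
  refine Finset.sum_congr rfl fun e _ => ?_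
  simp

theorem pre_congr {ι : Type*} {A : Finset ι} {τ : ι → ℝ} {e e' : ι → Dir 3} {i : ι}
    (h : ∀ j ∈ A, τ j < τ i → e j = e' j) : pre A τ e i = pre A τ e' i := by
  unfold pre
  refine Finset.sum_congr rfl fun j hj => ?_
  split_ifs with hlt
  · rw [h j hj hlt]
  · rfl

theorem sum_prod_wgt {ι : Type*} [Fintype ι] [DecidableEq ι] (a : ℤ) (τ : ι → ℝ)
    (e' : ι → Dir 3) (A : Finset ι) :
    (6 : ℝ≥0∞) ^ A.card * ∑ e : ι → Dir 3, ∏ i ∈ A, wgt a (pre A τ e i 0) (e i) (e' i) ≤
      6 ^ Fintype.card ι := by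
  induction A using Finset.induction_on_max_value τ with
  | empty =>
    simp
  | insert b A hb hmax ih =>
    refine le_trans ?_ ih
    rw [Finset.card_insert_of_notMem hb, pow_succ, mul_assoc, ← sum_update b]
    refine mul_le_mul_right ?_ _
    refine Finset.sum_le_sum fun e _ => ?_
    have h1 : ∀ d : Dir 3, ∏ i ∈ insert b A, wgt a (pre (insert b A) τ (Function.update e b d) i 0)
        (Function.update e b d i) (e' i) =
        wgt a (pre (insert b A) τ e b 0) d (e' b) *
          ∏ i ∈ A, wgt a (pre A τ e i 0) (e i) (e' i) := by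
      intro d
      rw [Finset.prod_insert hb]
      congr 1
      · rw [Function.update_self]
        have : pre (insert b A) τ (Function.update e b d) b = pre (insert b A) τ e b := by
          refine pre_congr fun j hj hlt => ?_
          rw [Function.update_of_ne]
          rintro rfl
          exact lt_irrefl _ hlt
        rw [this]
      · refine Finset.prod_congr rfl fun i hi => ?_
        have hib : i ≠ b := fun h => hb (h ▸ hi)
        rw [Function.update_of_ne hib, pre_insert hb _ (hmax i hi)]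
        have : pre A τ (Function.update e b d) i = pre A τ e i := by
          refine pre_congr fun j hj hlt => ?_
          rw [Function.update_of_ne]
          rintro rfl
          exact hb hj
        rw [this]
    simp_rw [h1]
    rw [← Finset.sum_mul]
    calc _ ≤ 1 * ∏ i ∈ A, wgt a (pre A τ e i 0) (e i) (e' i) :=
          mul_le_mul_left (sum_wgt _ _ _) _
      _ = _ := one_mul _

/-- number of weighted jumps -/
noncomputable def cnt {ι : Type*} [Fintype ι] (a : ℤ) (τ : ι → ℝ) (e : ι → Dir 3) : ℕ :=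
  ∑ i : ι, if pre Finset.univ τ e i 0 = a ∧ (e i).1 = 0 then 1 else 0

theorem fibre {ι : Type*} [Fintype ι] [DecidableEq ι] (a : ℤ) (τ : ι → ℝ) (e' : ι → Dir 3) :
    ∑ e : ι → Dir 3, (if (fun i => fdir a (pre Finset.univ τ e i 0) (e i)) = e' then
      (2⁻¹ : ℝ≥0∞) ^ cnt a τ e else 0) ≤ 1 := by
  have h := sum_prod_wgt a τ e' Finset.univ
  rw [Finset.card_univ] at h
  have h6 : (6 : ℝ≥0∞) ^ Fintype.card ι ≠ 0 := by simp
  have h6' : (6 : ℝ≥0∞) ^ Fintype.card ι ≠ ∞ := by simp
  have h2 : ∑ e : ι → Dir 3, ∏ i, wgt a (pre Finset.univ τ e i 0) (e i) (e' i) ≤ 1 := by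
    rw [← ENNReal.mul_le_mul_iff_right h6 h6', mul_one]
    exact h
  refine le_trans (le_of_eq ?_) h2
  refine Finset.sum_congr rfl fun e _ => ?_
  split_ifs with h3
  · unfold cnt
    rw [← Finset.prod_pow_eq_pow_sum]
    refine Finset.prod_congr rfl fun i _ => ?_
    unfold wgt
    rw [if_pos (congrFun h3 i)]
    split_ifs <;> simp
  · symm
    rw [Finset.prod_eq_zero_iff]
    by_contra hne
    push Not at hne
    refine h3 (funext fun i => ?_)
    by_contra hi
    exact hne i (Finset.mem_univ i) (by unfold wgt; rw [if_neg hi])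

/-- the weighted sum inequality for fixed distinct times -/
theorem skeleton {n : ℕ} (a : ℤ) (τ : Fin n → ℝ) (hτ : Function.Injective τ)
    (g : (ℝ → Fin 3 → ℤ) → ℝ≥0∞) (hg : ∀ x v, g (fun s => v + x s) = g x) :
    ∑ e : Fin n → Dir 3, g (fun s => fold a (pos ⟨n, fun i => (τ i, e i)⟩ s)) *
        (2⁻¹ : ℝ≥0∞) ^ cnt a τ e ≤
      ∑ e : Fin n → Dir 3, g (pos ⟨n, fun i => (τ i, e i)⟩) := by
  classical
  set Fe : (Fin n → Dir 3) → (Fin n → Dir 3) :=
    fun e i => fdir a (pre Finset.univ τ e i 0) (e i) with hFe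
  have h1 : ∀ e : Fin n → Dir 3, g (fun s => fold a (pos ⟨n, fun i => (τ i, e i)⟩ s)) =
      g (pos ⟨n, fun i => (τ i, Fe e i)⟩) := by
    intro e
    rw [← hg (pos ⟨n, fun i => (τ i, Fe e i)⟩) (fold a 0)]
    congr 1
    funext s
    have hp : ∀ e : Fin n → Dir 3, pos ⟨n, fun i => (τ i, e i)⟩ s =
        ∑ i ∈ Finset.univ.filter (fun i => τ i ≤ s), stp (e i) := by
      intro e
      unfold pos
      rw [Finset.sum_filter]
    rw [hp, hp, fold_sum a τ hτ]
    congr 1
    refine Finset.sum_congr rfl fun i hi => ?_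
    rw [hFe]
    have : pre (Finset.univ.filter (fun i => τ i ≤ s)) τ e i = pre Finset.univ τ e i := by
      unfold pre
      rw [Finset.sum_filter]
      refine Finset.sum_congr rfl fun j _ => ?_
      rw [Finset.mem_filter] at hi
      by_cases hj : τ j < τ i
      · rw [if_pos hj, if_pos (hj.le.trans hi.2)]
      · rw [if_neg hj, ite_self]
    rw [this]
  calc _ = ∑ e : Fin n → Dir 3, ∑ e' : Fin n → Dir 3,
        g (pos ⟨n, fun i => (τ i, e' i)⟩) *
          (if Fe e = e' then (2⁻¹ : ℝ≥0∞) ^ cnt a τ e else 0) := by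
        refine Finset.sum_congr rfl fun e _ => ?_
        rw [Finset.sum_eq_single (Fe e)]
        · rw [if_pos rfl, h1]
        · intro e' _ hne
          rw [if_neg (Ne.symm hne), mul_zero]
        · intro h
          exact absurd (Finset.mem_univ _) h
    _ = ∑ e' : Fin n → Dir 3, g (pos ⟨n, fun i => (τ i, e' i)⟩) *
          ∑ e : Fin n → Dir 3, (if Fe e = e' then (2⁻¹ : ℝ≥0∞) ^ cnt a τ e else 0) := by
        rw [Finset.sum_comm]
        refine Finset.sum_congr rfl fun e' _ => ?_
        rw [Finset.mul_sum]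
    _ ≤ ∑ e' : Fin n → Dir 3, g (pos ⟨n, fun i => (τ i, e' i)⟩) * 1 :=
        Finset.sum_le_sum fun e' _ => mul_le_mul_right (fibre a τ e') _
    _ = _ := by simp

theorem measurable_pre {n : ℕ} (i : Fin n) :
    Measurable (fun m : Fin n → ℝ × Dir 3 =>
      pre Finset.univ (fun j => (m j).1) (fun j => (m j).2) i 0) := by
  unfold pre
  simp_rw [Finset.sum_apply]
  refine Finset.measurable_fun_sum (M := ℤ) _ fun j _ => ?_
  have h1 : Measurable (fun e : Dir 3 => stp e 0) := measurable_of_countable _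
  have h2 : MeasurableSet {m : Fin n → ℝ × Dir 3 | (m j).1 < (m i).1} :=
    measurableSet_lt (by fun_prop) (by fun_prop)
  have h3 : Measurable (fun m : Fin n → ℝ × Dir 3 =>
      if (m j).1 < (m i).1 then stp (m j).2 0 else 0) :=
    Measurable.ite h2 (h1.comp (f := fun m : Fin n → ℝ × Dir 3 => (m j).2)
      (by fun_prop)) measurable_const
  refine Eq.mp (congrArg Measurable ?_) h3
  funext m
  split_ifs <;> rfl

/-- the number of `e_0`-jumps from the plane `x_0 = a` -/
noncomputable def Cn (a : ℤ) (w : Traj 3) : ℕ :=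
  cnt a (fun i => (w.2 i).1) (fun i => (w.2 i).2)

theorem measurable_Cn (a : ℤ) : Measurable (Cn a) := by
  apply measurable_of_sigma
  intro n
  have h : Measurable (fun m : Fin n → ℝ × Dir 3 => ∑ i : Fin n,
      if pre Finset.univ (fun j => (m j).1) (fun j => (m j).2) i 0 = a ∧ (m i).2.1 = 0
        then 1 else 0) := by
    refine Finset.measurable_fun_sum (M := ℕ) _ fun i _ => ?_
    have h1 : MeasurableSet {m : Fin n → ℝ × Dir 3 |
        pre Finset.univ (fun j => (m j).1) (fun j => (m j).2) i 0 = a} :=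
      measurable_pre i (measurableSet_singleton a)
    have h2 : MeasurableSet {m : Fin n → ℝ × Dir 3 | (m i).2.1 = 0} := by
      have : Measurable (fun m : Fin n → ℝ × Dir 3 => (m i).2.1) := by fun_prop
      exact this (measurableSet_singleton 0)
    exact Measurable.ite (h1.inter h2) measurable_const measurable_const
  exact h

theorem tsum_Cn (w : Traj 3) : ∑' a, (Cn a w : ℝ≥0∞) ≤ w.1 := by
  unfold Cn cnt
  push_cast
  rw [Summable.tsum_finsetSum (fun i _ => ENNReal.summable)]
  calc _ ≤ ∑ i : Fin w.1, (1 : ℝ≥0∞) := by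
        refine Finset.sum_le_sum fun i _ => ?_
        rw [tsum_eq_single (pre Finset.univ (fun i => (w.2 i).1) (fun i => (w.2 i).2) i 0)]
        · split_ifs <;> simp
        · intro a ha
          rw [if_neg]
          rintro ⟨h, _⟩
          exact ha h.symm
    _ = _ := by simp

theorem ae_ne {n : ℕ} (μ : Measure ℝ) [IsProbabilityMeasure μ] [NullSingletonClass μ] (i j : Fin n)
    (hij : i ≠ j) : ∀ᵐ τ ∂(Measure.pi fun _ : Fin n => μ), τ i ≠ τ j := by
  have h1 : iIndepFun (fun (i : Fin n) (τ : Fin n → ℝ) => τ i) (Measure.pi fun _ : Fin n => μ) :=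
    iIndepFun_pi (μ := fun _ : Fin n => μ) (X := fun (_ : Fin n) (x : ℝ) => x)
      fun _ => aemeasurable_id
  have h2 := (indepFun_iff_map_prod_eq_prod_map_map (measurable_pi_apply i).aemeasurable
    (measurable_pi_apply j).aemeasurable).1 (h1.indepFun hij)
  have h3 : ∀ k : Fin n, (Measure.pi fun _ : Fin n => μ).map (fun τ => τ k) = μ := by
    intro k
    exact (measurePreserving_eval (fun _ : Fin n => μ) k).map_eq
  rw [h3, h3] at h2
  have h4 : MeasurableSet {p : ℝ × ℝ | p.1 = p.2} := measurableSet_eq_fun measurable_fst measurable_snd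
  have h5 : (μ.prod μ) {p : ℝ × ℝ | p.1 = p.2} = 0 := by
    rw [Measure.prod_apply h4]
    have : ∀ x : ℝ, μ (Prod.mk x ⁻¹' {p : ℝ × ℝ | p.1 = p.2}) = 0 := by
      intro x
      have : (Prod.mk x ⁻¹' {p : ℝ × ℝ | p.1 = p.2}) = {x} := by
        ext y
        simp [eq_comm]
      rw [this]
      exact measure_singleton x
    simp [this]
  rw [← h2, Measure.map_apply (by fun_prop) h4] at h5
  rw [ae_iff]
  simpa using h5

theorem ae_injective {n : ℕ} (μ : Measure ℝ) [IsProbabilityMeasure μ] [NullSingletonClass μ] :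
    ∀ᵐ τ ∂(Measure.pi fun _ : Fin n => μ), Function.Injective τ := by
  have h : ∀ᵐ τ ∂(Measure.pi fun _ : Fin n => μ), ∀ i j : Fin n, i ≠ j → τ i ≠ τ j := by
    rw [ae_all_iff]
    intro i
    rw [ae_all_iff]
    intro j
    by_cases hij : i = j
    · exact Filter.Eventually.of_forall fun τ h => absurd hij h
    · filter_upwards [ae_ne μ i j hij] with τ hτ _
      exact hτ
  filter_upwards [h] with τ hτ
  intro i j hij
  by_contra hne
  exact hτ i j hne hij

theorem lintegral_jumps {n : ℕ} {t : ℝ} (ht : 0 < t) (f : (Fin n → ℝ × Dir 3) → ℝ≥0∞)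
    (hf : Measurable f) :
    ∫⁻ m, f m ∂(Measure.pi fun _ : Fin n => jumpLaw 3 t) =
      ∫⁻ τ, (∑ e : Fin n → Dir 3, f (fun i => (τ i, e i)) *
        (Measure.pi fun _ : Fin n => uniformOn (Set.univ : Set (Dir 3))) {e})
        ∂(Measure.pi fun _ : Fin n => cond (volume : Measure ℝ) (Set.Icc 0 t)) := by
  have h1 : IsProbabilityMeasure (cond (volume : Measure ℝ) (Set.Icc 0 t)) := by
    apply cond_isProbabilityMeasure_of_finite
    · simp [Real.volume_Icc, ht]
    · simp [Real.volume_Icc]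
  have h2 : IsProbabilityMeasure (uniformOn (Set.univ : Set (Dir 3))) :=
    isProbabilityMeasure_uniformOn Set.finite_univ Set.univ_nonempty
  have hm := measurePreserving_arrowProdEquivProdArrow ℝ (Dir 3) (Fin n)
    (fun _ => cond (volume : Measure ℝ) (Set.Icc 0 t)) (fun _ => uniformOn (Set.univ : Set (Dir 3)))
  unfold jumpLaw
  rw [← hm.symm.map_eq, MeasureTheory.lintegral_map_equiv, lintegral_prod]
  · refine lintegral_congr fun τ => ?_
    rw [lintegral_fintype]
    rfl
  · exact (hf.comp (MeasurableEquiv.measurable _)).aemeasurable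

theorem pi_uniform {n : ℕ} (e : Fin n → Dir 3) :
    (Measure.pi fun _ : Fin n => uniformOn (Set.univ : Set (Dir 3))) {e} =
      (Measure.pi fun _ : Fin n => uniformOn (Set.univ : Set (Dir 3))) {fun _ => (0, true)} := by
  have h2 : IsProbabilityMeasure (uniformOn (Set.univ : Set (Dir 3))) :=
    isProbabilityMeasure_uniformOn Set.finite_univ Set.univ_nonempty
  rw [Measure.pi_singleton, Measure.pi_singleton]
  refine Finset.prod_congr rfl fun i _ => ?_
  rw [uniformOn_univ, uniformOn_univ]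
  simp

end G

/-- MODULE G -/
theorem folding {κ t : ℝ} (hκ : 0 < κ) (ht : 0 < t) : ∃ Cn : ℤ → Traj 3 → ℕ,
    (∀ a, Measurable (Cn a)) ∧ (∀ w, ∑' a, (Cn a w : ℝ≥0∞) ≤ w.1) ∧
    ∀ (a : ℤ) (g : (ℝ → Fin 3 → ℤ) → ℝ≥0∞), (∀ x v, g (fun s => v + x s) = g x) →
      Measurable (fun w : Traj 3 => g (pos w)) →
      Measurable (fun w : Traj 3 => g (fun s => fold a (pos w s))) →
      ∫⁻ w, g (fun s => fold a (pos w s)) * (2⁻¹ : ℝ≥0∞) ^ (Cn a w) ∂(walkLaw 3 κ t) ≤
        ∫⁻ w, g (pos w) ∂(walkLaw 3 κ t) := by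
  refine ⟨G.Cn, G.measurable_Cn, G.tsum_Cn, ?_⟩
  intro a g hg hm1 hm2
  have hm3 : Measurable fun w : Traj 3 => g (fun s => fold a (pos w s)) *
      (2⁻¹ : ℝ≥0∞) ^ (G.Cn a w) := by
    refine hm2.mul ?_
    exact (measurable_from_nat (f := fun k : ℕ => (2⁻¹ : ℝ≥0∞) ^ k)).comp (G.measurable_Cn a)
  rw [lintegral_walkLaw 3 κ t _ hm3, lintegral_walkLaw 3 κ t _ hm1]
  refine ENNReal.tsum_le_tsum fun n => ?_
  refine mul_le_mul_right ?_ _
  rw [G.lintegral_jumps ht
      (fun m : Fin n → ℝ × Dir 3 => g (fun s => fold a (pos ⟨n, m⟩ s)) *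
        (2⁻¹ : ℝ≥0∞) ^ (G.Cn a ⟨n, m⟩)) (hm3.comp (measurable_sigmaMk n)),
    G.lintegral_jumps ht (fun m : Fin n → ℝ × Dir 3 => g (pos ⟨n, m⟩))
      (hm1.comp (measurable_sigmaMk n))]
  have h1 : IsProbabilityMeasure (cond (volume : Measure ℝ) (Set.Icc 0 t)) := by
    apply cond_isProbabilityMeasure_of_finite
    · simp [Real.volume_Icc, ht]
    · simp [Real.volume_Icc]
  have h2 : NullSingletonClass (cond (volume : Measure ℝ) (Set.Icc 0 t)) := by
    refine ⟨fun x => ?_⟩
    unfold ProbabilityTheory.cond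
    rw [Measure.smul_apply, measure_singleton, smul_zero]
  refine lintegral_mono_ae ?_
  filter_upwards [G.ae_injective (n := n) (cond (volume : Measure ℝ) (Set.Icc 0 t))] with τ hτ
  simp_rw [G.pi_uniform]
  rw [← Finset.sum_mul, ← Finset.sum_mul]
  exact mul_le_mul_left (G.skeleton a τ hτ g hg) _

end Pool.Agent.H99.Trap
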